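import Pool.Agent.Helper3.T3.Ls
import Pool.Agent.Helper3.TQ.Adm3
import Pool.Agent.Helper3.AR.Main

/-!
# Quotients of Dedekind zeta functions: alternating and symmetric groups

Let `N/K` be a Galois extension of number fields whose Galois group maps onto a finite product of
alternating or symmetric groups of large degrees `n i`, with solvable kernel, and let `L` be an
intermediate field such that the elements of the Galois group fixing `L` are mapped into admissible
subgroups `H i` (see `Admissible`; for instance, groups of at most `h` even permutations which are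
nilpotent, or solvable of odd order, or of order at most 11, or all of whose nontrivial elements move
at least `2 log_2 h` points). Then `ζ_L / ζ_K` is entire.
-/

set_option autoImplicit false

open NumberField Pool.Agent.Helper70.Art Equiv Equiv.Perm

namespace Pool.Agent.Results.MP_9fc8a5_nt.AlternatingLarge

/-- Every cycle length of `x` (at least two) occurs an even number of times. -/
def EvenCycles {n : ℕ} (x : Perm (Fin n)) : Prop := ∀ d, Even (x.cycleType.count d)

/-- Elements of 2-power order commute with elements of odd order. -/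
def TwoOdd (P : Type) [Group P] : Prop :=
  ∀ x y : P, (∃ r : ℕ, x ^ (2 ^ r) = 1) → Odd (orderOf y) → x * y = y * x

open Classical in
/-- The sum of `2 ^ (l - m)` over all `x ∈ H` without `EvenCycles` which move `m < C` points and have
`l` nontrivial cycles. -/
noncomputable def weight (C : ℕ) {n : ℕ} (H : Subgroup (Perm (Fin n))) : ℝ :=
  ∑ x ∈ Finset.univ.filter
    (fun x : Perm (Fin n) => x ∈ H ∧ x.support.card < C ∧ ¬ EvenCycles x),
    (1 / 2 : ℝ) ^ (x.support.card - Multiset.card x.cycleType)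

/-- `H` consists of at most `h` even permutations, and (a) its weight is less than one, or (b) there
are a subgroup `O`, a set `S` of points and a solvable group `P` of even permutations of `S` with
`TwoOdd`, such that each `x ∈ H` moving less than `C` points has `EvenCycles` if `x ∉ O`, and is
`a b` with `a ∈ P` and a permutation `b` of the complement of `S` with `EvenCycles` if `x ∈ O`, or
(c) `H` has at most 11 elements or is isomorphic to the alternating group of degree four. -/
def Admissible (h C : ℕ) {n : ℕ} (H : Subgroup (Perm (Fin n))) : Prop :=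
  Nat.card H ≤ h ∧ (∀ x ∈ H, sign x = 1) ∧
    (weight C H < 1 ∨
      (∃ (O : Subgroup (Perm (Fin n))) (S : Finset (Fin n)) (P : Subgroup (Perm (Fin n))),
        (∀ a ∈ P, sign a = 1 ∧ ∀ i, i ∉ S → a i = i) ∧ Group.IsSolvable P ∧ TwoOdd P ∧
        ∀ x ∈ H, C ≤ x.support.card ∨ (x ∉ O ∧ EvenCycles x) ∨
          (x ∈ O ∧ ∃ a ∈ P, ∃ b : Perm (Fin n), x = a * b ∧ (∀ i ∈ S, b i = i) ∧
            EvenCycles b)) ∨
      Nat.card H ≤ 11 ∨ Nonempty (H ≃* alternatingGroup (Fin 4)))

lemma admG_of_admissible {h C n : ℕ} {H : Subgroup (Perm (Fin n))} (hH : Admissible h C H) :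
    Pool.Agent.Helper3.TQ.AdmG h C H := by
  obtain ⟨hc, hs, hw | ⟨O, S, P, hP, hsol, htwo, hx⟩ | h11 | ⟨⟨e⟩⟩⟩ := hH
  · exact Pool.Agent.Helper3.TQ.admG_of_wt H hc hs hw
  · refine Pool.Agent.Helper3.TQ.admG_of_outside H O hc hs S P hP hsol htwo ?_ ?_
    · intro x hxH hxO
      rcases hx x hxH with h1 | ⟨h1, _⟩ | ⟨_, a, ha, b, hab, hb1, hb2⟩
      · exact Or.inl h1
      · exact absurd hxO h1
      · exact Or.inr ⟨a, ha, b, hab, hb1, hb2⟩
    · intro x hxH hxO
      rcases hx x hxH with h1 | ⟨_, h1⟩ | ⟨h1, _⟩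
      · exact Or.inl h1
      · exact Or.inr h1
      · exact absurd h1 hxO
  · exact Pool.Agent.Helper3.TQ.admG_of_inv H hc hs (Pool.Agent.Helper3.TQ.inv_of_card_le h11)
  · exact Pool.Agent.Helper3.TQ.admG_of_four H hc hs e

theorem result (h : ℕ) : ∃ C : ℕ,
    ∀ {K N : Type} [Field K] [NumberField K] [Field N] [NumberField N] [Algebra K N]
    [IsGalois K N] (L : IntermediateField K N) {ι : Type*} [Finite ι] (n : ι → ℕ)
    (_ : ∀ i, C ≤ n i) (G : ∀ i, Subgroup (Perm (Fin (n i))))
    (_ : ∀ i, alternatingGroup (Fin (n i)) ≤ G i)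
    (π : (N ≃ₐ[K] N) →* ∀ i, G i) (_ : Function.Surjective π) (_ : Group.IsSolvable π.ker)
    (H : ∀ i, Subgroup (Perm (Fin (n i)))) (_ : ∀ i, Admissible h C (H i))
    (_ : ∀ σ : N ≃ₐ[K] N, (∀ x ∈ L, σ x = x) → ∀ i, (π σ i : Perm (Fin (n i))) ∈ H i)
    (_ : (∀ i, Group.IsSolvable (H i)) ∨
      ∀ σ : N ≃ₐ[K] N, (∀ i, (π σ i : Perm (Fin (n i))) ∈ H i) → ∀ x ∈ L, σ x = x),
    ∃ g : ℂ → ℂ, Differentiable ℂ g ∧
      ∀ s : ℂ, 1 < s.re → g s = dedekindZeta L s / dedekindZeta K s := by
  obtain ⟨C, hC⟩ := Pool.Agent.Helper3.TQ.zeta_admG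
    (fun h ε hε => Pool.Agent.Helper3.T3.ls h ε hε) h
  refine ⟨C, ?_⟩
  intro K N _ _ _ _ _ _ L ι _ n hn G hG π hπ hker H hH hL hsol
  exact Pool.Agent.Helper3.AR.entire_of_factorises L
    (hC L n hn G hG π hπ hker H (fun i => admG_of_admissible (hH i)) hL hsol)

end Pool.Agent.Results.MP_9fc8a5_nt.AlternatingLarge
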