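import Pool.Agent.Helper3.AE.Fld2
import Pool.Agent.Helper55.AE.Final

/-!
# The asymptotic Dedekind conjecture for symmetric and alternating groups

Let `ε > 0`. There are `η > 0` and `n₀` such that for every Galois extension `N/K` of number fields with
group `S_n` or `A_n`, `n ≥ n₀`, every field `E` between `K` and `N` with `[E:K] ≤ [N:K] ^ η` and every
field `L` between `K` and `N` (which, in the case of `S_n`, contains the quadratic extension of `K`, or
has degree at most `[N:K] ^ η` and contains `E`) the function `(ζ_N/ζ_K)^a (ζ_L/ζ_E)^b` is entire as soon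
as `a ≥ ε b`: the order of every pole of `ζ_L/ζ_E` is at most `ε` times the order of the zero of the
entire function `ζ_N/ζ_K` there.
-/

set_option autoImplicit false

open NumberField Equiv

namespace Pool.Agent.Results.MP_9fc8a5_nt.AsymptoticArtin

/-- The function `F` on the half plane `Re s > 1` extends to an entire function. -/
def IsEntire (F : ℂ → ℂ) : Prop :=
  ∃ g : ℂ → ℂ, Differentiable ℂ g ∧ ∀ s : ℂ, 1 < s.re → g s = F s

/-- The degree of the intermediate field `E` is at most `[N:K] ^ η`. -/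
def Low (η : ℝ) {K N : Type} [Field K] [Field N] [Algebra K N] (E : IntermediateField K N) : Prop :=
  (Module.finrank K E : ℝ) ≤ (Module.finrank K N : ℝ) ^ η

theorem result (ε : ℝ) (hε : 0 < ε) : ∃ (η : ℝ) (n₀ : ℕ), 0 < η ∧ ∀ n ≥ n₀, ∀ (K N : Type) [Field K]
    [NumberField K] [Field N] [NumberField N] [Algebra K N] [IsGalois K N],
    (Nonempty ((N ≃ₐ[K] N) ≃* Perm (Fin n)) ∨
      Nonempty ((N ≃ₐ[K] N) ≃* alternatingGroup (Fin n))) →
    ∀ E L : IntermediateField K N, Low η E →
      ((∀ Q : IntermediateField K N, Module.finrank K Q = 2 → Q ≤ L) ∨ (E ≤ L ∧ Low η L)) →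
      ∀ a b : ℕ, ε * b ≤ a → IsEntire fun s =>
        (dedekindZeta N s / dedekindZeta K s) ^ a * (dedekindZeta L s / dedekindZeta E s) ^ b := by
  obtain ⟨η, n₀, hη, h⟩ := Pool.Agent.Helper3.AE.zeta_rel
    (Pool.Agent.Helper3.AE.altAll_of Pool.Agent.Helper55.AE.pt) ε hε
  exact ⟨η, n₀, hη, fun n hn K N _ _ _ _ _ _ hG E L hE hL a b hab => h n hn hG E L hE hL a b hab⟩

end Pool.Agent.Results.MP_9fc8a5_nt.AsymptoticArtin
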