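import Pool.Agent.Helper13.MobZ

/-!
# The values of the Möbius exponential sum are unbounded in every direction

`F R x = ∑_{n=1}^R μ(n) e^{2πinx}`.  For all real `φ` and `K` there are infinitely many `R` for
which some real `x` satisfies `Re (e^{iφ} F_R(x)) > K √R`.
-/

namespace Pool.Agent.Helper13.Reserve.EveryDirection

/-- The Möbius exponential sum `F_R(x) = ∑_{n=1}^R μ(n) e^{2πinx}`. -/
noncomputable def F (R : ℕ) (x : ℝ) : ℂ :=
  ∑ n ∈ Finset.Icc 1 R, ((ArithmeticFunction.moebius n : ℤ) : ℂ) *
    Complex.exp (2 * Real.pi * n * x * Complex.I)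

/-- For every direction `φ` and every `K`, infinitely many `R` admit a real `x` with
`Re (e^{iφ} F_R(x)) > K √R`. -/
theorem result (φ K : ℝ) :
    {R : ℕ | ∃ x : ℝ, K * Real.sqrt R < (Complex.exp (φ * Complex.I) * F R x).re}.Infinite :=
  Pool.Agent.Helper13.Mob.every_direction K φ

end Pool.Agent.Helper13.Reserve.EveryDirection
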