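import Pool.Agent.Helper90.FL.MainR

/-!
Limits of the formal method for Dedekind's conjecture on `ζ_L/ζ_K`: it is impossible to write the
class function of `ζ_L^C/ζ_K` as a nonnegative combination of characters induced from
representations of bounded degree, or with image having only small noncommutative simple sections.
-/

namespace Pool.Agent.Results.MP_9fc8a5_nt.FormalLimits

open scoped BigOperators

/-- The class function on the finite group `G` induced from the function `f` on the subgroup `M`
(Frobenius' formula). -/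
noncomputable def ind {G : Type} [Group G] [Fintype G] (M : Subgroup G) (f : M → ℂ) (g : G) : ℂ :=
  open Classical in
  (Nat.card M : ℂ)⁻¹ * ∑ x : G, if h : x⁻¹ * g * x ∈ M then f ⟨x⁻¹ * g * x, h⟩ else 0

/-- Every noncommutative simple section `A ⧸ B` of `Q` (`A` a subgroup of `Q`, `B` normal in `A`) has
order at most `n`. For `n = 0` and `Q` finite this means that `Q` is solvable. -/
def SmallSections (n : ℕ) (Q : Type*) [Group Q] : Prop :=
  ∀ (A : Subgroup Q) (B : Subgroup A) [B.Normal], IsSimpleGroup (A ⧸ B) →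
    (∀ x y : A ⧸ B, x * y = y * x) ∨ Nat.card (A ⧸ B) ≤ n

/-- `φ` is a finite sum `∑ c_j Ind_{M_j}^G tr ρ_j` with real `c_j ≥ 0`, subgroups `M_j` of `G` and
complex representations `ρ_j` of `M_j` such that each `ρ_j` has degree at most `n` or its image is a
group all whose noncommutative simple sections have order at most `n`. -/
def InCone (n : ℕ) {G : Type} [Group G] [Fintype G] (φ : G → ℂ) : Prop :=
  ∃ (J : Type) (_ : Fintype J) (c : J → ℝ) (M : J → Subgroup G) (d : J → ℕ)
    (ρ : ∀ j, M j →* GL (Fin (d j)) ℂ),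
    (∀ j, 0 ≤ c j) ∧ (∀ j, d j ≤ n ∨ SmallSections n (ρ j).range) ∧
    ∀ g, φ g = ∑ j, (c j : ℂ) *
      ind (M j) (fun x => Matrix.trace (ρ j x : Matrix (Fin (d j)) (Fin (d j)) ℂ)) g

/-- For every nontrivial finite group `H` and every `n` there are number fields `K ⊆ L ⊆ N`, `N` the
Galois closure of `L/K`, with `Gal(N/L) ≅ H`, such that for every finite group `Γ` mapping onto
`Gal(N/K)` the inflation to `Γ` of the class function `C · 1_{Gal(N/L)}^{Gal(N/K)} - 1` of
`ζ_L^C/ζ_K` is not in the cone, for all real `C < min(3, |H|)`, and for all real `C` if `|H| ≥ 4` and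
`n = 0` or `H` is not of exponent `3`. -/
theorem result {H : Type} [Group H] [Finite H] (hH : 2 ≤ Nat.card H) (n : ℕ) :
    ∃ (K N : Type) (_ : Field K) (_ : NumberField K) (_ : Field N) (_ : NumberField N)
      (_ : Algebra K N) (_ : FiniteDimensional K N) (_ : IsGalois K N) (L : IntermediateField K N),
      Nonempty (H ≃* (N ≃ₐ[L] N)) ∧ IntermediateField.normalClosure K L N = ⊤ ∧
      ∀ (Γ : Type) [Group Γ] [Fintype Γ] (π : Γ →* (N ≃ₐ[K] N)), Function.Surjective π →
        ∀ C : ℝ, ((C < 3 ∧ C < Nat.card H) ∨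
            (4 ≤ Nat.card H ∧ (n = 0 ∨ ∃ h : H, h ^ 3 ≠ 1))) →
          ¬ InCone n (fun x => (C : ℂ) * ind L.fixingSubgroup (fun _ => 1) (π x) - 1) :=
  Pool.Agent.Helper90.FL.mainR hH n

end Pool.Agent.Results.MP_9fc8a5_nt.FormalLimits
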