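import Pool.Agent.Helper70.GLw.FF
import Pool.Agent.Helper13.T3.Field
import Pool.Agent.Helper37.Ded.Rad
import Pool.Agent.Helper3.AR.Main

/-!
# Quotients of Dedekind zeta functions: linear groups of large degree

Let `N/K` be a Galois extension of number fields whose Galois group maps, with solvable kernel, onto
a finite product of groups `Q i`, where `Q i` is a quotient by scalars of a group between
`SL_n(F)` and `GL_n(F)` (for instance `SL_n`, `GL_n`, `PSL_n`, `PGL_n`), `F` a finite field, `n`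
large, and let `L` be an intermediate field such that the elements of the Galois group fixing `L`
are mapped into subgroups `H i` of `Q i` of bounded order, where the order of `H i` is prime to
`|F| - 1`, or `H i` is in the image of `SL_n(F)` and of order at most `|F|`, or `H i` is in the image
of `SL_n(F)` and for some vector `v` all `x ∈ SL_n(F)` over `H i` with `x v = a v` satisfy
`a ^ n = 1` (this is the case for every `H i` in the image of `SL_n(F)` if `|F| - 1` divides `n`).
Then `ζ_L / ζ_K` is entire.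
-/

set_option autoImplicit false

open NumberField Pool.Agent.Helper70.Art Module

namespace Pool.Agent.Results.MP_9fc8a5_nt.LinearLarge

/-- `ρ` maps `G`, a group between `SL_n(F)` and `GL_n(F)`, onto `Q`, and its kernel consists of
scalars. -/
def Linear {F : Type} [Field F] {n : ℕ} {Q : Type*} [Group Q]
    (G : Subgroup (Matrix (Fin n) (Fin n) F)ˣ) (ρ : G →* Q) : Prop :=
  (∀ g : (Matrix (Fin n) (Fin n) F)ˣ, g.1.det = 1 → g ∈ G) ∧ Function.Surjective ρ ∧
    ∀ g : G, ρ g = 1 → ∃ a : F, g.1.1 = a • 1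

/-- `H` is contained in the image of `SL_n(F)`, and `|H| ≤ |F|` or for some vector `v` every
`g ∈ SL_n(F)` over `H` with `g v = a v` satisfies `a ^ n = 1`. -/
def Special {F : Type} [Field F] {n : ℕ} {Q : Type*} [Group Q]
    (G : Subgroup (Matrix (Fin n) (Fin n) F)ˣ) (ρ : G →* Q) (H : Subgroup Q) : Prop :=
  (∀ x ∈ H, ∃ g : G, g.1.1.det = 1 ∧ ρ g = x) ∧ (Nat.card H ≤ Nat.card F ∨
    ∃ v : Fin n → F, ∀ (g : G) (a : F), g.1.1.det = 1 → ρ g ∈ H → g.1.1.mulVec v = a • v →
      a ^ n = 1)

/-- For a finite field `F` and a degree `n ≥ C(F)` the group is linear over `F` of degree `n`, and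
`H` has order at most `h` and is of order prime to `|F| - 1` or special. -/
def Adm (C : ∀ (F : Type) [Field F] [Finite F], ℕ) (h : ℕ) {Q : Type*} [Group Q]
    (H : Subgroup Q) : Prop :=
  ∃ (F : Type) (_ : Field F) (_ : Finite F) (n : ℕ) (G : Subgroup (Matrix (Fin n) (Fin n) F)ˣ)
    (ρ : G →* Q), C F ≤ n ∧ Linear G ρ ∧ Nat.card H ≤ h ∧
    ((Nat.card H).Coprime (Nat.card F - 1) ∨ Special G ρ H)

/-- The automorphisms fixing `L` are mapped by `π` into all `H i`, and the `H i` are solvable or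
every family of elements of the `H i` is the image of an automorphism fixing `L`. -/
def Over {K N : Type*} [Field K] [Field N] [Algebra K N] (L : IntermediateField K N) {ι : Type*}
    {Q : ι → Type*} [∀ i, Group (Q i)] (π : (N ≃ₐ[K] N) →* ∀ i, Q i) (H : ∀ i, Subgroup (Q i)) :
    Prop :=
  (∀ σ ∈ L.fixingSubgroup, ∀ i, π σ i ∈ H i) ∧
    ((∀ i, Group.IsSolvable (H i)) ∨
      ∀ x, (∀ i, x i ∈ H i) → ∃ σ ∈ L.fixingSubgroup, π σ = x)

theorem result (h : ℕ) : ∃ C : (∀ (F : Type) [Field F] [Finite F], ℕ),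
    ∀ {K N : Type} [Field K] [NumberField K] [Field N] [NumberField N] [Algebra K N]
    [IsGalois K N] (L : IntermediateField K N) {ι : Type*} [Finite ι]
    (Q : ι → Type*) [∀ i, Group (Q i)] (π : (N ≃ₐ[K] N) →* ∀ i, Q i)
    (_ : Function.Surjective π) (_ : Group.IsSolvable π.ker)
    (H : ∀ i, Subgroup (Q i)) (_ : ∀ i, Adm C h (H i)) (_ : Over L π H),
    ∃ g : ℂ → ℂ, Differentiable ℂ g ∧
      ∀ s : ℂ, 1 < s.re → g s = dedekindZeta L s / dedekindZeta K s := by
  refine ⟨fun F _ _ => (Pool.Agent.Helper70.GLn.ded_gl4 F h).choose, ?_⟩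
  intro K N _ _ _ _ _ _ L ι _ Q _ π hπ hker H hH hover
  obtain ⟨hL, hsol⟩ := hover
  have hfin : ∀ i, Finite (Q i) := fun i => by
    obtain ⟨F, _, _, n, G, ρ, -, ⟨-, hρ, -⟩, -⟩ := hH i
    exact Finite.of_surjective ρ hρ
  have hd : ∀ i, Pool.Agent.Helper13.Ded.Ded (H i) := fun i => by
    obtain ⟨F, _, _, n, G, ρ, hn, ⟨hG, hρ, hk⟩, hh, hcase⟩ := hH i
    exact (Pool.Agent.Helper70.GLn.ded_gl4 F h).choose_spec n hn G ρ hG hρ hk (H i) hh hcase
  have hle : L.fixingSubgroup.map π ≤ Subgroup.pi Set.univ H := by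
    rintro x ⟨σ, hσ, rfl⟩
    rw [Subgroup.mem_pi]
    intro i _
    exact hL σ hσ i
  refine Pool.Agent.Helper3.AR.entire_of_ded L ?_
  rcases hsol with hsol | hsol
  · exact ded_prod π hπ H hsol hd _ hle
  · refine Pool.Agent.Helper37.Rad.ded_of_surj_solvable_ker π hπ _ ?_
    have h1 : L.fixingSubgroup.map π = Subgroup.pi Set.univ H := by
      refine le_antisymm hle ?_
      intro x hx
      obtain ⟨σ, hσ, rfl⟩ := hsol x (fun i => hx i (Set.mem_univ i))
      exact ⟨σ, hσ, rfl⟩
    rw [h1]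
    exact ded_pi _ hd

end Pool.Agent.Results.MP_9fc8a5_nt.LinearLarge
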