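import Pool.Agent.Helper13.MobW

/-!
# Unboundedness of the Möbius exponential sum at low frequencies

`F R x = ∑_{n=1}^R μ(n) e^{2πinx}`.  For every `K` there is a fixed `b ≥ 0` such that
`|F_R(b/R)| > K √R` for infinitely many `R`.
-/

namespace Pool.Agent.Helper13.Reserve.LowFrequency

/-- The Möbius exponential sum `F_R(x) = ∑_{n=1}^R μ(n) e^{2πinx}`. -/
noncomputable def F (R : ℕ) (x : ℝ) : ℂ :=
  ∑ n ∈ Finset.Icc 1 R, ((ArithmeticFunction.moebius n : ℤ) : ℂ) *
    Complex.exp (2 * Real.pi * n * x * Complex.I)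

/-- For every `K` there is a fixed `b ≥ 0` with `|F_R(b/R)| > K √R` for infinitely many `R`. -/
theorem result (K : ℝ) :
    ∃ b : ℝ, 0 ≤ b ∧ {R : ℕ | K * Real.sqrt R < ‖F R (b / R)‖}.Infinite :=
  Pool.Agent.Helper13.Mob.low_freq K

end Pool.Agent.Helper13.Reserve.LowFrequency
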