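import Pool.Agent.Helper70.Art.Main
import Pool.Agent.Helper70.Art.Prod
import Pool.Agent.Helper13.PGL.Final

/-!
# Quotients of Dedekind zeta functions: projective linear groups in odd characteristic

Let `N/K` be a Galois extension of number fields whose Galois group maps onto a finite product of
groups `PGL_2(F i)`, `F i` finite fields of odd characteristic, with solvable kernel, and let `L`
be an intermediate field such that the elements of the Galois group fixing `L` are mapped to `1`
or to a fixed element `t i` with `t i * t i = 1` in each factor. Then some positive power of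
`ζ_L / ζ_K` is a product of Artin `L`-functions of nontrivial characters of degree one.
-/

set_option autoImplicit false

open NumberField Pool.Agent.Helper70.Art

namespace Pool.Agent.Results.MP_9fc8a5_nt.ProjectiveInvolutions

theorem result {K N : Type*} [Field K] [NumberField K] [Field N] [NumberField N] [Algebra K N]
    [IsGalois K N] (L : IntermediateField K N)
    {ι : Type*} [Finite ι] (F : ι → Type*) [∀ i, Field (F i)] [∀ i, Finite (F i)]
    (hF : ∀ i, ringChar (F i) ≠ 2)
    (π : (N ≃ₐ[K] N) →* ∀ i, Matrix.ProjGenLinGroup (Fin 2) (F i))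
    (hπ : Function.Surjective π) (hker : Group.IsSolvable π.ker)
    (t : ∀ i, Matrix.ProjGenLinGroup (Fin 2) (F i)) (ht : ∀ i, t i * t i = 1)
    (hL : ∀ σ : N ≃ₐ[K] N, (∀ x ∈ L, σ x = x) → ∀ i, π σ i = 1 ∨ π σ i = t i) :
    ∃ (m r : ℕ) (M : Fin r → Subgroup (N ≃ₐ[K] N)) (ψ : ∀ j, M j →* ℂˣ) (e : Fin r → ℕ),
      0 < m ∧ (∀ j, ψ j ≠ 1) ∧ ∀ s : ℂ, 1 < s.re →
        dedekindZeta L s ^ m = dedekindZeta K s ^ m *
          ∏ j, artinL (IntermediateField.fixedField (M j)) N (ψ j) s ^ e j := by
  classical
  have := fun i => Fintype.ofFinite (F i)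
  refine zeta_identity K N L (ded_prod π hπ (fun i => Subgroup.zpowers (t i))
    (fun i => inferInstance)
    (fun i => Pool.Agent.Helper13.PGL.ded_invol (hF i) (t i) (ht i)) _ ?_)
  rintro x ⟨σ, hσ, rfl⟩
  rw [Subgroup.mem_pi]
  intro i _
  rcases hL σ (fun x hx => hσ ⟨x, hx⟩) i with h | h
  · rw [h]
    exact one_mem _
  · rw [h]
    exact Subgroup.mem_zpowers _

end Pool.Agent.Results.MP_9fc8a5_nt.ProjectiveInvolutions
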